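import Mathlib
import Pool.Agent.Work.RW.AlgPT
import Pool.Agent.Work.RW.Read

/-!
# Polynomial-time identity testing for programs of constant width and constant read

For all constants `r`, `k` and `c` there is a deterministic polynomial-time algorithm that tests
whether a branching program of width `r + 1` computes a nonzero polynomial, never accepts a program
that computes the zero polynomial, and is correct on all programs that arise, by identifying at
most `k` variables at a time, from programs for which at each cut at most `c` variables occur on
both sides. The case `c = 0` contains all programs in which each variable occurs in at most `k`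
of the matrices, in any order (`identBP_of_count`).
-/

set_option autoImplicit false

namespace Pool.Agent.Work.MP_3c5c20_lc.Kept.BoundedWidthRead

open Pool.Agent.PIT Turing

/-- Programs in which all but at most `c` variables occur in at most `k` of the matrices belong to
the class considered. -/
theorem identBP_of_count {r k c : ℕ} (hk : 1 ≤ k) {p : BP r}
    (h : Set.encard {v : Name | k < (p.map Prod.fst).count v} ≤ c) : p ∈ IdentBP r k c :=
  Pool.Agent.PIT.identBP_of_count hk h

/-- For all `r`, `k` and `c` there is a polynomial-time algorithm that accepts only programs of
width `r + 1` which compute nonzero polynomials, and accepts all such programs which belong to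
`IdentBP (r + 1) k c`. -/
theorem result (r k c : ℕ) : ∃ f : BP (r + 1) → Bool,
    Nonempty (TM2ComputableInPolyTime bpCode (fun b : Bool => [b]) f) ∧
    (∀ p, f p = true → bpPoly p ≠ 0) ∧
    ∀ p ∈ IdentBP (r + 1) k c, bpPoly p ≠ 0 → f p = true :=
  RWA.mainP r k c

end Pool.Agent.Work.MP_3c5c20_lc.Kept.BoundedWidthRead
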