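import Mathlib
import Pool.Agent.Work.RK.HitMain

/-!
# Explicit hitting sets for constant-read formulas

For all constants `k` and `c` there is a constant `w` such that the explicit set
`hset n (w * h) (D * n)` of at most `(D * n + 1) ^ (2 * (w * h))` integral points hits all nonzero
polynomials computed by formulas with fewer than `2 ^ h` variable leaves (or with Horton–Strahler
number at most `h`) and degree sum at most `D` which arise from `c`-thin formulas by identifying at
most `k` variables at a time. For formulas of size `s` this is a set of quasi-polynomial size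
`s ^ O(log s)`; the case `c = 0` contains all formulas in which each variable labels at most `k`
leaves.
-/

set_option autoImplicit false

namespace Pool.Agent.Work.MP_3c5c20_lc.Kept.HittingSets

open Pool.Agent.RK

theorem result (k c : ℕ) : ∃ w : ℕ, ∀ n h D : ℕ,
    (hset n (w * h) (D * n)).card ≤ (D * n + 1) ^ (2 * (w * h)) ∧
    ∀ (K : Type) [Field K] [CharZero K] (G : Fm K ℕ) (φ : ℕ → Fin n),
      G.ThinC c → (∀ v : Fin n, Set.encard {u : ℕ | φ u = v ∧ 0 < G.occ u} ≤ k) →
      (G.strahler ≤ h ∨ G.leaves < 2 ^ h) → G.deg ≤ D → (G.map φ).poly ≠ 0 →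
      ∃ x ∈ hset n (w * h) (D * n),
        MvPolynomial.eval (fun i => ((x i : ℤ) : K)) (G.map φ).poly ≠ 0 :=
  ⟨locW k c, fun n h D => ⟨card_hset_le n _ _,
    fun K _ _ G φ h3 h4 h1 h2 h5 => hit_main k c n h D G φ h1 h2 h3 h4 h5⟩⟩

end Pool.Agent.Work.MP_3c5c20_lc.Kept.HittingSets
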